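import Mathlib

namespace Pool.Agent.Results.MP_8df504_an.Halve

open Set Filter Topology MeasureTheory

/-- continuous self-map of `[0,1]`, affine on each piece of a finite partition -/
def BrokenLinear (T : ℝ → ℝ) : Prop :=
  ContinuousOn T (Icc 0 1) ∧ MapsTo T (Icc 0 1) (Icc 0 1) ∧
    ∃ (m : ℕ) (a : ℕ → ℝ), a 0 = 0 ∧ a m = 1 ∧ ∀ j < m, a j < a (j + 1) ∧
      ∃ s t : ℝ, ∀ x ∈ Icc (a j) (a (j + 1)), T x = s * x + t

/-- proportion of the iterates `T^1 p, …, T^N p` lying in `R` -/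
noncomputable def avg (T : ℝ → ℝ) (R : Set ℝ) (p : ℝ) (N : ℕ) : ℝ :=
  (∑ i ∈ Finset.range N, R.indicator (fun _ => (1 : ℝ)) (T^[i + 1] p)) / N

noncomputable def T (x : ℝ) : ℝ := x / 2

noncomputable def u (x : ℝ) : ℝ := -Real.logb 2 x

lemma bl : BrokenLinear T := by
  refine ⟨by unfold T; fun_prop, fun x hx => ⟨by unfold T; linarith [hx.1],
    by unfold T; linarith [hx.2]⟩, 1, fun j => j, by simp, by simp, fun j _ => ⟨by simp, 1 / 2, 0,
    fun x _ => by unfold T; ring⟩⟩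

lemma iter (i : ℕ) {p : ℝ} (h : p ∈ Ioc (0 : ℝ) 1) :
    T^[i] p ∈ Ioc (0 : ℝ) 1 ∧ u (T^[i] p) = u p + i := by
  induction i with
  | zero => simpa using h
  | succ i ih =>
    rw [Function.iterate_succ_apply']
    refine ⟨⟨by unfold T at *; linarith [ih.1.1], by unfold T at *; linarith [ih.1.2]⟩, ?_⟩
    have := ih.2
    unfold u at *
    rw [T, Real.logb_div ih.1.1.ne' two_ne_zero, Real.logb_self_eq_one one_lt_two]
    push_cast; linarith

lemma mu : Measurable u := by unfold u Real.logb; fun_prop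

lemma u_mem {p : ℝ} (h : p ∈ Ioc (1 / 2 : ℝ) 1) : 0 ≤ u p ∧ u p < 1 := by
  have h0 : 0 < p := by linarith [h.1]
  refine ⟨neg_nonneg.2 (Real.logb_nonpos one_lt_two h0.le h.2), ?_⟩
  rw [u, neg_lt, Real.lt_logb_iff_rpow_lt one_lt_two h0, Real.rpow_neg_one]
  linarith [h.1]

def R₁ : Set ℝ := Icc 0 1 ∩ (fun x => ⌊u x⌋₊) ⁻¹' {n | Even (Nat.log 2 (n - 1))}

lemma block {p : ℝ} (h : p ∈ Ioc (1 / 2 : ℝ) 1) (m : ℕ) :
    2 * avg T R₁ p (2 ^ (m + 1)) - avg T R₁ p (2 ^ m) = if Even m then 1 else 0 := by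
  have key : ∀ i ∈ Finset.Ico (2 ^ m) (2 ^ (m + 1)),
      R₁.indicator (fun _ => (1 : ℝ)) (T^[i + 1] p) = if Even m then 1 else 0 := by
    intro i hi
    rw [Finset.mem_Ico] at hi
    obtain ⟨h1, h2⟩ := iter (i + 1) (p := p) ⟨by linarith [h.1], h.2⟩
    have h3 : ⌊u (T^[i + 1] p)⌋₊ = i + 1 := by
      rw [h2, Nat.floor_add_natCast (u_mem h).1, Nat.floor_eq_zero.2 (u_mem h).2, zero_add]
    have h4 : Nat.log 2 i = m := Nat.log_eq_of_pow_le_of_lt_pow hi.1 hi.2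
    have h5 : T^[i + 1] p ∈ R₁ ↔ Even m := by
      simp only [R₁, mem_inter_iff, mem_preimage, h3, mem_setOf_eq, Nat.add_sub_cancel, h4]
      exact and_iff_right (Ioc_subset_Icc_self h1)
    by_cases hm : Even m
    · rw [indicator_of_mem (h5.2 hm), if_pos hm]
    · rw [indicator_of_notMem (fun c => hm (h5.1 c)), if_neg hm]
  have := Finset.sum_range_add_sum_Ico (fun i => R₁.indicator (fun _ => (1 : ℝ)) (T^[i + 1] p))
    (show 2 ^ m ≤ 2 ^ (m + 1) from Nat.pow_le_pow_right two_pos (by omega))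
  rw [Finset.sum_congr rfl key, Finset.sum_const, Nat.card_Ico,
    show 2 ^ (m + 1) - 2 ^ m = 2 ^ m by rw [pow_succ, mul_two, Nat.add_sub_cancel], nsmul_eq_mul] at this
  rw [avg, avg, ← this]
  push_cast
  field_simp
  ring

lemma nolim {p : ℝ} (h : p ∈ Ioc (1 / 2 : ℝ) 1) (L : ℝ) : ¬ Tendsto (avg T R₁ p) atTop (𝓝 L) := by
  intro hL
  have h1 := hL.comp (tendsto_pow_atTop_atTop_of_one_lt (one_lt_two (α := ℕ)))
  have h2 := ((h1.comp (tendsto_add_atTop_nat 1)).const_mul 2).sub h1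
  simp only [Function.comp, block h] at h2
  have e1 := h2.comp (tendsto_id.const_mul_atTop' (two_pos (α := ℕ)))
  have e2 := h2.comp ((tendsto_add_atTop_nat 1).comp
    (tendsto_id.const_mul_atTop' (two_pos (α := ℕ))))
  simp [Function.comp_def, Nat.even_add_one] at e1 e2
  linarith

def R₂ : Set ℝ := Icc 0 1 ∩
  {x | ⌊((⌊u x⌋ : ℝ) + 1) * Int.fract (u x)⌋ ≠ ⌊(⌊u x⌋ : ℝ) * Int.fract (u x)⌋}

lemma lim₂ {p : ℝ} (h : p ∈ Ioc (0 : ℝ) 1) :
    Tendsto (avg T R₂ p) atTop (𝓝 (Int.fract (u p))) := by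
  set θ := Int.fract (u p)
  have θ0 : 0 ≤ θ := Int.fract_nonneg _
  have θ1 : θ < 1 := Int.fract_lt_one _
  set c : ℝ := (⌊u p⌋ : ℝ) + 1
  have key : ∀ i : ℕ, R₂.indicator (fun _ => (1 : ℝ)) (T^[i + 1] p) =
      (⌊(c + (i + 1 : ℕ)) * θ⌋ : ℝ) - ⌊(c + i) * θ⌋ := by
    intro i
    obtain ⟨h1, h2⟩ := iter (i + 1) h
    have h5 : T^[i + 1] p ∈ R₂ ↔ ⌊(c + (i + 1 : ℕ)) * θ⌋ ≠ ⌊(c + i) * θ⌋ := by
      simp only [R₂, mem_inter_iff, mem_setOf_eq, h2, Int.floor_add_natCast, Int.fract_add_natCast]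
      rw [and_iff_right (Ioc_subset_Icc_self h1)]
      push_cast
      simp only [c, θ]
      ring_nf
    have a : ⌊(c + i) * θ⌋ ≤ ⌊(c + (i + 1 : ℕ)) * θ⌋ := Int.floor_mono (by push_cast; nlinarith)
    have b : ⌊(c + (i + 1 : ℕ)) * θ⌋ ≤ ⌊(c + i) * θ⌋ + 1 := by
      rw [← Int.floor_add_one]; exact Int.floor_mono (by push_cast; nlinarith)
    by_cases hm : ⌊(c + (i + 1 : ℕ)) * θ⌋ = ⌊(c + i) * θ⌋
    · rw [indicator_of_notMem (fun c => h5.1 c hm), hm, sub_self]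
    · rw [indicator_of_mem (h5.2 hm), show ⌊(c + (i + 1 : ℕ)) * θ⌋ = ⌊(c + i) * θ⌋ + 1 by omega]
      simp
  have sum : ∀ N, avg T R₂ p N = ((⌊(c + N) * θ⌋ : ℝ) - ⌊(c + (0 : ℕ)) * θ⌋) / N := fun N => by
    rw [avg, Finset.sum_congr rfl fun i _ => key i,
      Finset.sum_range_sub fun i : ℕ => (⌊(c + i) * θ⌋ : ℝ)]
  have t : ∀ a : ℝ, Tendsto (fun N : ℕ => θ + a / N) atTop (𝓝 θ) := fun a => by
    simpa using (tendsto_const_div_atTop_nhds_zero_nat a).const_add θ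
  refine tendsto_of_tendsto_of_tendsto_of_le_of_le' (t (-1)) (t 1) ?_ ?_ <;>
    filter_upwards [eventually_gt_atTop 0] with N hN <;>
    have hN' : (0 : ℝ) < N := by exact_mod_cast hN
  · rw [sum, le_div_iff₀ hN', add_mul θ, div_mul_cancel₀ _ hN'.ne', Nat.cast_zero, add_zero]
    linarith [Int.floor_le (c * θ), Int.lt_floor_add_one ((c + N) * θ)]
  · rw [sum, div_le_iff₀ hN', add_mul θ, div_mul_cancel₀ _ hN'.ne', Nat.cast_zero, add_zero]
    linarith [Int.lt_floor_add_one (c * θ), Int.floor_le ((c + N) * θ)]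

theorem result :
    (∃ (T : ℝ → ℝ) (R : Set ℝ), BrokenLinear T ∧ MeasurableSet R ∧ R ⊆ Icc 0 1 ∧
      ∃ E, MeasurableSet E ∧ E ⊆ Icc 0 1 ∧ 0 < volume E ∧
        ∀ p ∈ E, ∀ L, ¬ Tendsto (avg T R p) atTop (𝓝 L)) ∧
    (∃ (T : ℝ → ℝ) (R : Set ℝ) (L : ℝ → ℝ), BrokenLinear T ∧ MeasurableSet R ∧ R ⊆ Icc 0 1 ∧
      (∀ p ∈ Ioc (0 : ℝ) 1, Tendsto (avg T R p) atTop (𝓝 (L p))) ∧
      ∀ S ⊆ Icc 0 1, volume (Icc 0 1 \ S) = 0 → (L '' S).Infinite) := by
  have := mu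
  refine ⟨⟨T, R₁, bl, measurableSet_Icc.inter (mu.nat_floor (by trivial)), inter_subset_left,
    Ioc (1 / 2) 1, measurableSet_Ioc, fun x hx => ⟨by linarith [hx.1], hx.2⟩, by norm_num,
    fun p hp => nolim hp⟩, T, R₂, fun p => Int.fract (u p), bl,
    measurableSet_Icc.inter ?_, inter_subset_left, fun p => lim₂, fun S _ hS hf => ?_⟩
  · have hf : Measurable fun x => (⌊u x⌋ : ℝ) := measurable_from_top.comp mu.floor
    exact (measurableSet_eq_fun ((hf.add_const 1).mul mu.fract).floor (hf.mul mu.fract).floor).compl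
  · have h1 : (S ∩ Ioc (1 / 2) 1).Finite := by
      refine Finite.of_finite_image (hf.subset (image_mono inter_subset_left)) fun x hx y hy e => ?_
      simp only [Int.fract_eq_self.2 (u_mem hx.2), Int.fract_eq_self.2 (u_mem hy.2)] at e
      simp only [u, neg_inj] at e
      exact Real.logb_injOn_pos one_lt_two (by simp; linarith [hx.2.1]) (by simp; linarith [hy.2.1]) e
    have h2 : volume (Ioc (1 / 2 : ℝ) 1) = 0 := by
      refine measure_mono_null (fun x hx => ?_) (measure_union_null (h1.measure_zero _) hS)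
      by_cases c : x ∈ S
      · exact Or.inl ⟨c, hx⟩
      · exact Or.inr ⟨⟨by linarith [hx.1], hx.2⟩, c⟩
    norm_num at h2

end Pool.Agent.Results.MP_8df504_an.Halve
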